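import Pool.Agent.H52.AL.Defs

/-!
# AL, module C: the shift inequality
-/

set_option autoImplicit false
open Classical

namespace Pool.H52.AL.H74

open Pool.H52.AL

theorem U_mono_cell {X : Finset Cell → Prop} {w : Finset Cell} {z z' : Cell}
    (h1 : z.1 ≤ z'.1) (h2 : z.2 ≤ z'.2) (h : U X w z) : U X w z' := by
  obtain ⟨A, hA, hX, hz⟩ := h
  exact ⟨A, hA, hX, fun p hp => ⟨(hz p hp).1.trans_le h1, (hz p hp).2.trans_le h2⟩⟩

theorem U_mono_set {X : Finset Cell → Prop} {w w' : Finset Cell} {z : Cell}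
    (hw : w ⊆ w') (h : U X w z) : U X w' z := by
  obtain ⟨A, hA, hX, hz⟩ := h
  exact ⟨A, hA.trans hw, hX, hz⟩

theorem minimal_copy {X : Finset Cell → Prop} {w : Finset Cell} (n : ℕ) :
    ∀ z : Cell, z.1 + z.2 ≤ n → U X w z →
      ∃ A ⊆ w, X A ∧ (∀ p ∈ A, p.1 < z.1 ∧ p.2 < z.2) ∧ ∀ p ∈ A, ¬ U X w p := by
  induction n with
  | zero =>
    rintro z hz ⟨A, hA, hX, hp⟩
    refine ⟨A, hA, hX, hp, fun p hpA => ?_⟩
    have := hp p hpA
    omega
  | succ n ih =>
    rintro z hz ⟨A, hA, hX, hp⟩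
    by_cases h : ∃ p ∈ A, U X w p
    · obtain ⟨p, hpA, hpU⟩ := h
      have h1 := hp p hpA
      obtain ⟨B, hB, hXB, hBp, hBU⟩ := ih p (by omega) hpU
      exact ⟨B, hB, hXB, fun r hr => ⟨(hBp r hr).1.trans h1.1, (hBp r hr).2.trans h1.2⟩, hBU⟩
    · push Not at h
      exact ⟨A, hA, hX, hp, h⟩

/-- The region above the copies of `X` is a stopping set. -/
theorem stopping {X : Finset Cell → Prop} {w w' : Finset Cell}
    (h : ∀ p, ¬ U X w p → (p ∈ w ↔ p ∈ w')) (z : Cell) : U X w' z ↔ U X w z := by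
  constructor
  · rintro ⟨A, hA, hX, hp⟩
    by_cases hA' : ∃ p ∈ A, U X w p
    · obtain ⟨p, hpA, hpU⟩ := hA'
      have h1 := hp p hpA
      exact U_mono_cell h1.1.le h1.2.le hpU
    · push Not at hA'
      exact ⟨A, fun p hpA => (h p (hA' p hpA)).mpr (hA hpA), hX, hp⟩
  · intro hU
    obtain ⟨A, hA, hX, hp, hn⟩ := minimal_copy (z.1 + z.2) z le_rfl hU
    exact ⟨A, fun p hpA => (h p (hn p hpA)).mp (hA hpA), hX, hp⟩

theorem grid_card (M : ℕ) : (grid M).card = M ^ 2 := by
  unfold grid
  rw [Finset.card_product, Finset.card_range, sq]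

theorem mem_grid {M : ℕ} {p : Cell} : p ∈ grid M ↔ p.1 < M ∧ p.2 < M := by
  unfold grid
  rw [Finset.mem_product, Finset.mem_range, Finset.mem_range]

theorem grid_subset (M s : ℕ) : grid M ⊆ grid (M + s) := by
  intro p hp
  rw [mem_grid] at hp ⊢
  omega

/-- Marginals. -/
theorem marginal (P : Finset Cell → Prop) (q : ℝ) (M s : ℕ) :
    Pr q M P = Pr q (M + s) (fun w => P (w ∩ grid M)) := by
  unfold Pr
  have hdis : Disjoint (grid M) (grid (M + s) \ grid M) := Finset.disjoint_sdiff
  have e1 : ∑ w ∈ (grid (M + s)).powerset.filter (fun w => P (w ∩ grid M)),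
      q ^ w.card * (1 - q) ^ ((M + s) ^ 2 - w.card) =
      ∑ x ∈ ((grid M).powerset.filter P) ×ˢ (grid (M + s) \ grid M).powerset,
        (q ^ x.1.card * (1 - q) ^ (M ^ 2 - x.1.card)) *
        (q ^ x.2.card * (1 - q) ^ ((grid (M + s) \ grid M).card - x.2.card)) := by
    refine Finset.sum_bij' (fun w _ => (w ∩ grid M, w \ grid M)) (fun x _ => x.1 ∪ x.2)
      ?_ ?_ ?_ ?_ ?_
    · intro w hw
      rw [Finset.mem_filter, Finset.mem_powerset] at hw
      rw [Finset.mem_product, Finset.mem_filter, Finset.mem_powerset, Finset.mem_powerset]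
      exact ⟨⟨Finset.inter_subset_right, hw.2⟩, Finset.sdiff_subset_sdiff hw.1 le_rfl⟩
    · rintro ⟨u, v⟩ hx
      rw [Finset.mem_product, Finset.mem_filter, Finset.mem_powerset, Finset.mem_powerset] at hx
      obtain ⟨⟨hu, hPu⟩, hv⟩ := hx
      dsimp only at hu hPu hv
      rw [Finset.mem_filter, Finset.mem_powerset]
      refine ⟨Finset.union_subset (hu.trans (grid_subset M s)) (hv.trans Finset.sdiff_subset), ?_⟩
      have : (u ∪ v) ∩ grid M = u := by
        ext p
        rw [Finset.mem_inter, Finset.mem_union]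
        constructor
        · rintro ⟨h | h, hG⟩
          · exact h
          · exact absurd hG (Finset.mem_sdiff.mp (hv h)).2
        · intro h
          exact ⟨Or.inl h, hu h⟩
      rw [this]
      exact hPu
    · intro w _
      dsimp only
      rw [Finset.union_comm]
      exact Finset.sdiff_union_inter w (grid M)
    · rintro ⟨u, v⟩ hx
      rw [Finset.mem_product, Finset.mem_filter, Finset.mem_powerset, Finset.mem_powerset] at hx
      obtain ⟨⟨hu, hPu⟩, hv⟩ := hx
      dsimp only at hu hPu hv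
      refine Prod.ext ?_ ?_
      · ext p
        simp only [Finset.mem_inter, Finset.mem_union]
        constructor
        · rintro ⟨h | h, hG⟩
          · exact h
          · exact absurd hG (Finset.mem_sdiff.mp (hv h)).2
        · intro h
          exact ⟨Or.inl h, hu h⟩
      · ext p
        simp only [Finset.mem_sdiff, Finset.mem_union]
        constructor
        · rintro ⟨h | h, hG⟩
          · exact absurd (hu h) hG
          · exact h
        · intro h
          exact ⟨Or.inr h, (Finset.mem_sdiff.mp (hv h)).2⟩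
    · intro w hw
      rw [Finset.mem_filter, Finset.mem_powerset] at hw
      have h1 : (w ∩ grid M).card ≤ M ^ 2 := by
        rw [← grid_card]
        exact Finset.card_le_card Finset.inter_subset_right
      have h2 : (w \ grid M).card ≤ (grid (M + s) \ grid M).card :=
        Finset.card_le_card (Finset.sdiff_subset_sdiff hw.1 le_rfl)
      have h3 : (w ∩ grid M).card + (w \ grid M).card = w.card :=
        Finset.card_inter_add_card_sdiff w (grid M)
      have h4 : M ^ 2 + (grid (M + s) \ grid M).card = (M + s) ^ 2 := by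
        rw [← grid_card M, ← grid_card (M + s)]
        have := Finset.card_sdiff_add_card_eq_card (grid_subset M s)
        omega
      dsimp only
      rw [← h3, ← h4]
      have h5 : M ^ 2 + (grid (M + s) \ grid M).card -
          ((w ∩ grid M).card + (w \ grid M).card) = (M ^ 2 - (w ∩ grid M).card) +
          ((grid (M + s) \ grid M).card - (w \ grid M).card) := by omega
      rw [h5, pow_add, pow_add]
      ring
  rw [e1, Finset.sum_product]
  refine Finset.sum_congr rfl fun u _ => ?_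
  dsimp only
  rw [← Finset.mul_sum, Finset.sum_pow_mul_eq_add_pow]
  simp

/-- The cells of the small grid above a copy of `X`. -/
noncomputable def AA (X : Finset Cell → Prop) (M : ℕ) (w : Finset Cell) : Finset Cell :=
  (grid M).filter (fun p => U X (w ∩ grid M) p)

/-- The translation. -/
def tr (s : ℕ) (p : Cell) : Cell := (p.1 + s, p.2 + s)

theorem tr_inj (s : ℕ) : Function.Injective (tr s) := by
  rintro ⟨a, b⟩ ⟨c, d⟩ h
  simp only [tr, Prod.mk.injEq] at h
  exact Prod.ext (by omega) (by omega)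

/-- The remaining target cells. -/
noncomputable def Rest (M s : ℕ) (A : Finset Cell) : Finset Cell :=
  grid (M + s) \ ((grid M \ A) ∪ A.image (tr s))

/-- `A` is an upper set of the small grid. -/
def Up (M : ℕ) (A : Finset Cell) : Prop :=
  A ⊆ grid M ∧ ∀ p ∈ A, ∀ p' ∈ grid M, p.1 ≤ p'.1 → p.2 ≤ p'.2 → p' ∈ A

theorem AA_up (X : Finset Cell → Prop) (M : ℕ) (w : Finset Cell) : Up M (AA X M w) := by
  refine ⟨Finset.filter_subset _ _, ?_⟩
  intro p hp p' hp' h1 h2
  unfold AA at hp ⊢
  rw [Finset.mem_filter] at hp ⊢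
  exact ⟨hp', U_mono_cell h1 h2 hp.2⟩

theorem tr_sub {M s : ℕ} {A : Finset Cell} (hA : Up M A) : A.image (tr s) ⊆ grid (M + s) := by
  intro p hp
  rw [Finset.mem_image] at hp
  obtain ⟨r, hr, rfl⟩ := hp
  have := mem_grid.mp (hA.1 hr)
  rw [mem_grid]
  simp only [tr]
  omega

theorem tr_disj {M s : ℕ} {A : Finset Cell} (hA : Up M A) :
    Disjoint (grid M \ A) (A.image (tr s)) := by
  rw [Finset.disjoint_left]
  intro p hp hp'
  rw [Finset.mem_image] at hp'
  obtain ⟨r, hr, rfl⟩ := hp'
  rw [Finset.mem_sdiff] at hp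
  exact hp.2 (hA.2 r hr _ hp.1 (by simp [tr]) (by simp [tr]))

theorem Rest_card {M s : ℕ} {A : Finset Cell} (hA : Up M A) :
    (grid (M + s) \ grid M).card = (Rest M s A).card := by
  unfold Rest
  rw [Finset.card_sdiff_of_subset (grid_subset M s), Finset.card_sdiff_of_subset
    (Finset.union_subset (Finset.sdiff_subset.trans (grid_subset M s)) (tr_sub hA)),
    Finset.card_union_of_disjoint (tr_disj hA), Finset.card_image_of_injective _ (tr_inj s),
    Finset.card_sdiff_of_subset hA.1]
  have := Finset.card_le_card hA.1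
  omega

/-- The cell map. -/
noncomputable def pm (M s : ℕ) (A : Finset Cell) (p : Cell) : Cell :=
  if hA : Up M A then
    if p ∈ A then tr s p
    else if hp : p ∈ grid (M + s) \ grid M then
      (Finset.equivOfCardEq (Rest_card (s := s) hA) ⟨p, hp⟩ : Cell)
    else p
  else p

theorem pm_A {M s : ℕ} {A : Finset Cell} (hA : Up M A) {p : Cell} (hp : p ∈ A) :
    pm M s A p = tr s p := by
  unfold pm
  rw [dif_pos hA, if_pos hp]

theorem pm_out {M s : ℕ} {A : Finset Cell} (hA : Up M A) {p : Cell}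
    (hp : p ∈ grid (M + s) \ grid M) :
    pm M s A p = (Finset.equivOfCardEq (Rest_card (s := s) hA) ⟨p, hp⟩ : Cell) := by
  unfold pm
  have h : p ∉ A := fun h => (Finset.mem_sdiff.mp hp).2 (hA.1 h)
  rw [dif_pos hA, if_neg h, dif_pos hp]

theorem pm_out_mem {M s : ℕ} {A : Finset Cell} (hA : Up M A) {p : Cell}
    (hp : p ∈ grid (M + s) \ grid M) : pm M s A p ∈ Rest M s A := by
  rw [pm_out hA hp]
  exact Finset.coe_mem _

theorem pm_fix {M s : ℕ} {A : Finset Cell} (hA : Up M A) {p : Cell}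
    (hp : p ∈ grid M \ A) : pm M s A p = p := by
  unfold pm
  rw [Finset.mem_sdiff] at hp
  rw [dif_pos hA, if_neg hp.2, dif_neg (fun h => (Finset.mem_sdiff.mp h).2 hp.1)]

theorem cases3 {M s : ℕ} (A : Finset Cell) {p : Cell} (hp : p ∈ grid (M + s)) :
    p ∈ A ∨ p ∈ grid M \ A ∨ p ∈ grid (M + s) \ grid M := by
  by_cases h1 : p ∈ A
  · exact Or.inl h1
  · by_cases h2 : p ∈ grid M
    · exact Or.inr (Or.inl (Finset.mem_sdiff.mpr ⟨h2, h1⟩))
    · exact Or.inr (Or.inr (Finset.mem_sdiff.mpr ⟨hp, h2⟩))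

theorem pm_mem {M s : ℕ} {A : Finset Cell} (hA : Up M A) {p : Cell} (hp : p ∈ grid (M + s)) :
    pm M s A p ∈ grid (M + s) := by
  rcases cases3 A hp with h | h | h
  · rw [pm_A hA h]
    exact tr_sub hA (Finset.mem_image_of_mem _ h)
  · rw [pm_fix hA h]
    exact hp
  · exact (Finset.mem_sdiff.mp (pm_out_mem hA h)).1

theorem Rest_notA {M s : ℕ} {A : Finset Cell} {p : Cell} (hp : p ∈ Rest M s A) :
    p ∉ A.image (tr s) := fun h =>
  (Finset.mem_sdiff.mp hp).2 (Finset.mem_union_right _ h)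

theorem Rest_notF {M s : ℕ} {A : Finset Cell} {p : Cell} (hp : p ∈ Rest M s A) :
    p ∉ grid M \ A := fun h =>
  (Finset.mem_sdiff.mp hp).2 (Finset.mem_union_left _ h)

theorem pm_inj {M s : ℕ} {A : Finset Cell} (hA : Up M A) :
    Set.InjOn (pm M s A) (grid (M + s) : Set Cell) := by
  intro p hp p' hp' h
  rw [Finset.mem_coe] at hp hp'
  rcases cases3 A hp with h1 | h1 | h1 <;> rcases cases3 A hp' with h2 | h2 | h2
  · rw [pm_A hA h1, pm_A hA h2] at h
    exact tr_inj s h
  · rw [pm_A hA h1, pm_fix hA h2] at h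
    exact absurd (Finset.mem_image_of_mem (tr s) h1)
      (h ▸ Finset.disjoint_left.mp (tr_disj hA) h2)
  · exfalso
    have := Rest_notA (pm_out_mem hA h2)
    rw [← h, pm_A hA h1] at this
    exact this (Finset.mem_image_of_mem _ h1)
  · rw [pm_fix hA h1, pm_A hA h2] at h
    exact absurd (Finset.mem_image_of_mem (tr s) h2)
      (h ▸ Finset.disjoint_left.mp (tr_disj hA) h1)
  · rw [pm_fix hA h1, pm_fix hA h2] at h
    exact h
  · exfalso
    have := Rest_notF (pm_out_mem hA h2)
    rw [← h, pm_fix hA h1] at this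
    exact this h1
  · exfalso
    have := Rest_notA (pm_out_mem hA h1)
    rw [h, pm_A hA h2] at this
    exact this (Finset.mem_image_of_mem _ h2)
  · exfalso
    have := Rest_notF (pm_out_mem hA h1)
    rw [h, pm_fix hA h2] at this
    exact this h2
  · rw [pm_out hA h1, pm_out hA h2] at h
    have h3 := (Finset.equivOfCardEq (Rest_card (s := s) hA)).injective (Subtype.ext h)
    exact congrArg Subtype.val h3

/-- The configuration map. -/
noncomputable def TT (X : Finset Cell → Prop) (M s : ℕ) (w : Finset Cell) : Finset Cell :=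
  w.image (pm M s (AA X M w))

variable {X : Finset Cell → Prop} {M s : ℕ}

theorem TT_sub {w : Finset Cell} (hw : w ⊆ grid (M + s)) : TT X M s w ⊆ grid (M + s) := by
  intro p hp
  unfold TT at hp
  rw [Finset.mem_image] at hp
  obtain ⟨r, hr, rfl⟩ := hp
  exact pm_mem (AA_up X M w) (hw hr)

theorem TT_card {w : Finset Cell} (hw : w ⊆ grid (M + s)) : (TT X M s w).card = w.card := by
  unfold TT
  exact Finset.card_image_of_injOn ((pm_inj (AA_up X M w)).mono (by exact_mod_cast hw))

theorem TT_stop {w : Finset Cell} (hw : w ⊆ grid (M + s)) (p : Cell)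
    (hp : ¬ U X (w ∩ grid M) p) : p ∈ w ∩ grid M ↔ p ∈ TT X M s w ∩ grid M := by
  have hup := AA_up X M w
  rw [Finset.mem_inter, Finset.mem_inter]
  constructor
  · rintro ⟨h1, h2⟩
    refine ⟨?_, h2⟩
    unfold TT
    rw [Finset.mem_image]
    refine ⟨p, h1, pm_fix hup ?_⟩
    rw [Finset.mem_sdiff]
    refine ⟨h2, fun h => hp ?_⟩
    unfold AA at h
    exact (Finset.mem_filter.mp h).2
  · rintro ⟨h1, h2⟩
    refine ⟨?_, h2⟩
    have hF : p ∈ grid M \ AA X M w := by
      rw [Finset.mem_sdiff]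
      refine ⟨h2, fun h => hp ?_⟩
      unfold AA at h
      exact (Finset.mem_filter.mp h).2
    unfold TT at h1
    rw [Finset.mem_image] at h1
    obtain ⟨r, hr, hrp⟩ := h1
    rcases cases3 (AA X M w) (hw hr) with h | h | h
    · exfalso
      rw [pm_A hup h] at hrp
      rw [← hrp] at hF
      exact Finset.disjoint_left.mp (tr_disj hup) hF (Finset.mem_image_of_mem _ h)
    · rw [pm_fix hup h] at hrp
      rw [← hrp]
      exact hr
    · exfalso
      have := Rest_notF (pm_out_mem hup h)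
      rw [hrp] at this
      exact this hF

theorem TT_U {w : Finset Cell} (hw : w ⊆ grid (M + s)) (z : Cell) :
    U X (TT X M s w ∩ grid M) z ↔ U X (w ∩ grid M) z :=
  stopping (fun p hp => TT_stop hw p hp) z

theorem TT_AA {w : Finset Cell} (hw : w ⊆ grid (M + s)) : AA X M (TT X M s w) = AA X M w := by
  unfold AA
  refine Finset.filter_congr fun p _ => TT_U hw p

theorem TT_inj : Set.InjOn (TT X M s) {w | w ⊆ grid (M + s)} := by
  intro w hw w' hw' h
  have h1 : AA X M w = AA X M w' := by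
    rw [← TT_AA (X := X) hw, ← TT_AA (X := X) hw', h]
  unfold TT at h
  rw [← h1] at h
  ext p
  have hinj := pm_inj (s := s) (AA_up X M w)
  constructor
  · intro hp
    have h2 : pm M s (AA X M w) p ∈ w'.image (pm M s (AA X M w)) := by
      rw [← h]
      exact Finset.mem_image_of_mem _ hp
    rw [Finset.mem_image] at h2
    obtain ⟨r, hr, hrp⟩ := h2
    have := hinj (by exact_mod_cast hw' hr) (by exact_mod_cast hw hp) hrp
    rwa [← this]
  · intro hp
    have h2 : pm M s (AA X M w) p ∈ w.image (pm M s (AA X M w)) := by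
      rw [h]
      exact Finset.mem_image_of_mem _ hp
    rw [Finset.mem_image] at h2
    obtain ⟨r, hr, hrp⟩ := h2
    have := hinj (by exact_mod_cast hw hr) (by exact_mod_cast hw' hp) hrp
    rwa [← this]

theorem TT_Es {Y : Finset Cell → Prop}
    (hY : ∀ A, Y A → Y (A.image (fun p : Cell => (p.1 + s, p.2 + s)))) {w : Finset Cell}
    (hw : w ⊆ grid (M + s)) (h : C0 X Y (w ∩ grid M)) : Es X Y s (M + s) (TT X M s w) := by
  obtain ⟨z, hU, hD⟩ := h
  have hup := AA_up X M w
  have hU' : U X (w ∩ grid M) (min z.1 M, min z.2 M) := by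
    obtain ⟨A, hA, hX, hp⟩ := hU
    refine ⟨A, hA, hX, fun p hpA => ?_⟩
    have h1 := hp p hpA
    have h2 := mem_grid.mp (Finset.mem_inter.mp (hA hpA)).2
    exact ⟨lt_min h1.1 h2.1, lt_min h1.2 h2.2⟩
  refine ⟨(min z.1 M, min z.2 M), ?_, ?_, ?_, ?_⟩
  · have := min_le_right z.1 M
    dsimp only
    omega
  · have := min_le_right z.2 M
    dsimp only
    omega
  · exact U_mono_set Finset.inter_subset_left ((TT_U hw _).mpr hU')
  · obtain ⟨B, hB, hYB, hp⟩ := hD
    refine ⟨B.image (fun p : Cell => (p.1 + s, p.2 + s)), ?_, hY B hYB, ?_⟩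
    · intro p hpB
      rw [Finset.mem_image] at hpB
      obtain ⟨r, hr, rfl⟩ := hpB
      have h1 := hp r hr
      have h2 := Finset.mem_inter.mp (hB hr)
      have h3 : r ∈ AA X M w := by
        unfold AA
        rw [Finset.mem_filter]
        exact ⟨h2.2, U_mono_cell ((min_le_left _ _).trans h1.1) ((min_le_left _ _).trans h1.2)
          hU'⟩
      unfold TT
      rw [Finset.mem_image]
      exact ⟨r, h2.1, pm_A hup h3⟩
    · intro p hpB
      rw [Finset.mem_image] at hpB
      obtain ⟨r, hr, rfl⟩ := hpB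
      have h1 := hp r hr
      exact ⟨Nat.add_le_add_right ((min_le_left _ _).trans h1.1) s,
        Nat.add_le_add_right ((min_le_left _ _).trans h1.2) s⟩

/-- MODULE C -/
theorem shift (X Y : Finset Cell → Prop) (q : ℝ) (hq0 : 0 ≤ q) (hq1 : q ≤ 1) (M s : ℕ)
    (hY : ∀ A, Y A → Y (A.image (fun p : Cell => (p.1 + s, p.2 + s)))) :
    Pr q M (C0 X Y) ≤ Pr q (M + s) (Es X Y s (M + s)) := by
  rw [marginal (C0 X Y) q M s]
  unfold Pr
  set F := (grid (M + s)).powerset.filter (fun w => C0 X Y (w ∩ grid M)) with hF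
  have h1 : ∑ w ∈ F, q ^ w.card * (1 - q) ^ ((M + s) ^ 2 - w.card) =
      ∑ w ∈ F, q ^ (TT X M s w).card * (1 - q) ^ ((M + s) ^ 2 - (TT X M s w).card) := by
    refine Finset.sum_congr rfl fun w hw => ?_
    rw [hF, Finset.mem_filter, Finset.mem_powerset] at hw
    rw [TT_card hw.1]
  have h2 : ∑ w ∈ F, q ^ (TT X M s w).card * (1 - q) ^ ((M + s) ^ 2 - (TT X M s w).card) =
      ∑ w ∈ F.image (TT X M s), q ^ w.card * (1 - q) ^ ((M + s) ^ 2 - w.card) := by
    rw [Finset.sum_image]
    intro w hw w' hw' h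
    rw [Finset.mem_coe, hF, Finset.mem_filter, Finset.mem_powerset] at hw hw'
    exact TT_inj hw.1 hw'.1 h
  rw [h1, h2]
  refine Finset.sum_le_sum_of_subset_of_nonneg ?_ (fun w _ _ =>
    mul_nonneg (pow_nonneg hq0 _) (pow_nonneg (by linarith) _))
  intro w hw
  rw [Finset.mem_image] at hw
  obtain ⟨v, hv, rfl⟩ := hw
  rw [hF, Finset.mem_filter, Finset.mem_powerset] at hv
  rw [Finset.mem_filter, Finset.mem_powerset]
  exact ⟨TT_sub hv.1, TT_Es hY hv.1 hv.2⟩

end Pool.H52.AL.H74
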